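import Mathlib

set_option autoImplicit false

namespace Pool.Agent.H.MP_a4cf75_mp
open Matrix MeasureTheory Complex ComplexConjugate Kronecker

abbrev n := Fin 2 × Fin 2
abbrev U := unitaryGroup n ℂ

lemma s4 (p q r s : n → ℂ) : (∑ a, p a) * (∑ a, q a) * (∑ a, r a) * (∑ a, s a) =
    ∑ a, ∑ b, ∑ c, ∑ d, p a * q b * r c * s d := by
  simp only [← Finset.mul_sum, ← Finset.sum_mul]

section
variable {A : n → n → n → n → ℂ} (inv : ∀ W ∈ unitaryGroup n ℂ, ∀ a b c d, A a b c d = ∑ a', ∑ b', ∑ c', ∑ d',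
      (W a a' * W b b' * conj (W c c') * conj (W d d')) * A a' b' c' d')
include inv

lemma z (a b c d : n) (h1 : ¬(a = c ∧ b = d)) (h2 : ¬(a = d ∧ b = c)) : A a b c d = 0 := by
  have dg : ∀ m, A a b c d = (if a = m then I else 1) * (if b = m then I else 1) * (if c = m then -I else 1) *
      (if d = m then -I else 1) * A a b c d := fun m => by
    have := inv (diagonal fun a => if a = m then I else 1) (by
      rw [mem_unitaryGroup_iff, star_eq_conjTranspose, diagonal_conjTranspose, diagonal_mul_diagonal, ← diagonal_one]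
      congr 1; ext a; by_cases h : a = m <;> simp [h]) a b c d
    simpa [diagonal_apply, apply_ite conj] using this
  by_contra h
  have e := fun m => (mul_eq_right₀ h).1 (dg m).symm
  have ea := e a
  have eb := e b
  clear e dg h inv
  by_cases ba : b = a <;> by_cases ca : c = a <;> by_cases da : d = a <;> by_cases cb : c = b <;> by_cases db : d = b <;>
    simp_all [Complex.ext_iff, eq_comm] <;> norm_num at *

lemma st (a b c d : n) : A a b c d = if a = c ∧ b = d then (if a = b then A 0 0 0 0 else A 0 1 0 1) else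
    if a = d ∧ b = c then A 0 1 1 0 else 0 := by
  have pm : ∀ (s : Equiv.Perm n) a b c d, A a b c d = A (s a) (s b) (s c) (s d) := fun s a b c d => by
    have := inv (of fun a b => if b = s a then 1 else 0) (by
      rw [mem_unitaryGroup_iff]; ext a b; simp [mul_apply, one_apply, eq_comm]) a b c d
    simpa [apply_ite conj] using this
  have p : a ≠ b → ∃ s : Equiv.Perm n, s 0 = a ∧ s 1 = b := fun h =>
    ⟨Equiv.swap (Equiv.swap 0 a 1) b * Equiv.swap 0 a, by revert a b; decide, by simp⟩
  split_ifs with h1 h2 h3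
  · obtain ⟨rfl, rfl⟩ := h1
    rw [pm (Equiv.swap 0 a) 0 0 0 0, ← h2, Equiv.swap_apply_left]
  · obtain ⟨rfl, rfl⟩ := h1
    obtain ⟨s, rfl, rfl⟩ := p h2
    exact (pm s _ _ _ _).symm
  · obtain ⟨rfl, rfl⟩ := h3
    obtain ⟨s, rfl, rfl⟩ := p fun h => h1 ⟨h, h.symm⟩
    exact (pm s _ _ _ _).symm
  · exact z inv _ _ _ _ h1 h3

lemma alg (a b c d : n) : A a b c d =
    (if a = c ∧ b = d then (4 * (∑ a, ∑ b, A a b a b) - ∑ a, ∑ b, A a b b a) / 60 else 0) +
    (if a = d ∧ b = c then (4 * (∑ a, ∑ b, A a b b a) - ∑ a, ∑ b, A a b a b) / 60 else 0) := by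
  have t3 := inv (of fun a b => if a = b then 1 / 2 else -1 / 2) (by
    rw [mem_unitaryGroup_iff]; ext ⟨a, a'⟩ ⟨b, b'⟩
    fin_cases a <;> fin_cases b <;> fin_cases a' <;> fin_cases b' <;>
      simp [mul_apply, Fintype.sum_prod_type, apply_ite conj, map_ofNat] <;> norm_num) 0 0 0 0
  have h := st inv
  generalize A 0 0 0 0 = x, A 0 1 0 1 = y, A 0 1 1 0 = w at h t3
  simp only [h] at t3 ⊢
  simp [Fintype.sum_prod_type, Prod.ext_iff, map_ofNat] at t3
  have : x = y + w := by linear_combination (4 / 3) * t3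
  subst this
  have e1 : ∑ a : n, ∑ b : n, (if a = b then y + w else y) = 16 * y + 4 * w := by
    simp [Fintype.sum_prod_type, Prod.ext_iff]; ring
  have e2 : ∑ a : n, ∑ b : n, (if a = b ∧ b = a then (if a = b then y + w else y) else w) = 16 * w + 4 * y := by
    simp [Fintype.sum_prod_type, Prod.ext_iff]; ring
  simp only [and_self, if_true, e1, e2]
  by_cases h1 : a = c ∧ b = d <;> by_cases h2 : a = d ∧ b = c
  · rw [if_pos h1, if_pos h1, if_pos h2, if_pos (h2.1.trans h1.2.symm)]; ring
  · rw [if_pos h1, if_pos h1, if_neg h2, if_neg fun h => h2 ⟨h.trans h1.2, h.symm.trans h1.1⟩]; ring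
  · rw [if_neg h1, if_neg h1, if_pos h2, if_pos h2]; ring
  · rw [if_neg h1, if_neg h1, if_neg h2, if_neg h2]; ring
end

variable [MeasurableSpace U] [BorelSpace U] (μ : Measure U) [IsProbabilityMeasure μ] [μ.IsMulLeftInvariant]

def f (i j k l a b c d : n) (V : U) : ℂ := V.1 a i * V.1 b j * conj (V.1 c k) * conj (V.1 d l)

omit [μ.IsMulLeftInvariant] in
lemma fi (i j k l a b c d : n) : Integrable (f i j k l a b c d) μ := by
  refine Integrable.of_bound (Continuous.aestronglyMeasurable ?_) 1 (.of_forall fun V => ?_)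
  · have : ∀ a i, Continuous fun V : U => V.1 a i := fun a i => continuous_subtype_val.matrix_elem a i
    exact (((this _ _).mul (this _ _)).mul (this _ _).star).mul (this _ _).star
  · have := entry_norm_bound_of_unitary V.2
    simp only [f, norm_mul, norm_conj]
    exact mul_le_one₀ (mul_le_one₀ (mul_le_one₀ (this _ _) (norm_nonneg _) (this _ _)) (norm_nonneg _) (this _ _))
      (norm_nonneg _) (this _ _)

omit [BorelSpace U] [IsProbabilityMeasure μ] [μ.IsMulLeftInvariant] in
lemma I2 {α : Type} [Fintype α] (g : α → α → U → ℂ) (h : ∀ a b, Integrable (g a b) μ) :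
    ∫ V, ∑ a, ∑ b, g a b V ∂μ = ∑ a, ∑ b, ∫ V, g a b V ∂μ := by
  rw [integral_finsetSum _ fun a _ => integrable_finsetSum _ fun b _ => h a b]
  exact Finset.sum_congr rfl fun a _ => integral_finsetSum _ fun b _ => h a b

lemma mom (i j k l a b c d : n) : ∫ V, f i j k l a b c d V ∂μ =
    (if a = c ∧ b = d then (4 * (if i = k ∧ j = l then 1 else 0) - (if i = l ∧ j = k then 1 else 0)) / 60 else 0) +
    (if a = d ∧ b = c then (4 * (if i = l ∧ j = k then 1 else 0) - (if i = k ∧ j = l then 1 else 0)) / 60 else 0) := by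
  have col : ∀ (V : U) i k, ∑ a, V.1 a i * conj (V.1 a k) = if i = k then 1 else 0 := fun V i k => by
    have := congrFun (congrFun (mem_unitaryGroup_iff'.1 V.2) k) i
    simpa [mul_apply, one_apply, mul_comm, eq_comm] using this
  have t1 : ∑ a, ∑ b, ∫ V, f i j k l a b a b V ∂μ = if i = k ∧ j = l then 1 else 0 := by
    rw [← I2 μ _ fun a b => fi μ i j k l a b a b]
    have : ∀ V : U, ∑ a, ∑ b, f i j k l a b a b V = if i = k ∧ j = l then 1 else 0 := fun V => by
      rw [← mul_one (1 : ℂ), ← ite_zero_mul_ite_zero, ← col V, ← col V, Finset.sum_mul_sum]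
      exact Finset.sum_congr rfl fun _ _ => Finset.sum_congr rfl fun _ _ => by rw [f]; ring
    simp [this]
  have t2 : ∑ a, ∑ b, ∫ V, f i j k l a b b a V ∂μ = if i = l ∧ j = k then 1 else 0 := by
    rw [← I2 μ _ fun a b => fi μ i j k l a b b a]
    have : ∀ V : U, ∑ a, ∑ b, f i j k l a b b a V = if i = l ∧ j = k then 1 else 0 := fun V => by
      rw [← mul_one (1 : ℂ), ← ite_zero_mul_ite_zero, ← col V, ← col V, Finset.sum_mul_sum]
      exact Finset.sum_congr rfl fun _ _ => Finset.sum_congr rfl fun _ _ => by rw [f]; ring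
    simp [this]
  rw [← t1, ← t2]
  refine alg (A := fun a b c d => ∫ V, f i j k l a b c d V ∂μ) (fun W hW a b c d => ?_) a b c d
  have := fun a' b' c' d' => (fi μ i j k l a' b' c' d').const_mul (W a a' * W b b' * conj (W c c') * conj (W d d'))
  simp only [← integral_const_mul]
  simp only [← I2 μ _ (this _ _)]
  rw [← I2 μ _ fun a b => integrable_finsetSum _ fun c _ => integrable_finsetSum _ fun d _ => this a b c d,
    ← integral_mul_left_eq_self _ (⟨W, hW⟩ : U)]
  refine congrArg _ (funext fun V => ?_)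
  have : ∀ a i, ((⟨W, hW⟩ : U) * V).1 a i = ∑ b, W a b * V.1 b i := fun _ _ => rfl
  simp only [f, this, map_sum, map_mul, s4]
  exact Finset.sum_congr rfl fun _ _ => Finset.sum_congr rfl fun _ _ => Finset.sum_congr rfl fun _ _ =>
    Finset.sum_congr rfl fun _ _ => by ring

end Pool.Agent.H.MP_a4cf75_mp
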