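import Pool.Agent.H.MP_a4cf75_mp.A

set_option autoImplicit false

namespace Pool.Agent.H.MP_a4cf75_mp
open Matrix MeasureTheory Complex ComplexConjugate Kronecker

def chan {d e : ℕ} [NeZero e] (V : Matrix (Fin d × Fin e) (Fin d × Fin e) ℂ) (X : Matrix (Fin d) (Fin d) ℂ) :
    Matrix (Fin d) (Fin d) ℂ :=
  of fun i j => ∑ s, (V * X ⊗ₖ single (0 : Fin e) (0 : Fin e) (1 : ℂ) * Vᴴ : Matrix _ _ ℂ) (i, s) (j, s)

noncomputable def moment {d e : ℕ} [NeZero e] [MeasurableSpace (unitaryGroup (Fin d × Fin e) ℂ)]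
    (μ : Measure (unitaryGroup (Fin d × Fin e) ℂ)) (t : ℕ) :
    Matrix (Fin t → Fin d × Fin d) (Fin t → Fin d × Fin d) ℂ :=
  of fun a b => ∫ V, ∏ s, chan V.1 (single (b s).1 (b s).2 1) (a s).1 (a s).2 ∂μ

noncomputable def N {d e : ℕ} [NeZero e] [MeasurableSpace (unitaryGroup (Fin d × Fin e) ℂ)]
    (μ : Measure (unitaryGroup (Fin d × Fin e) ℂ)) (t k : ℕ) : ℝ :=
  ((moment μ t ^ k)ᴴ * moment μ t ^ k).trace.re

lemma ch (V : Matrix n n ℂ) (i j k l : Fin 2) :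
    chan V (single k l 1) i j = ∑ s, V (i, s) (k, 0) * conj (V (j, s) (l, 0)) := by
  simp only [chan, of_apply, single_kronecker_single]
  refine Finset.sum_congr rfl fun s _ => ?_
  rw [mul_apply, Finset.sum_eq_single (l, 0)]
  · simp
  · intro b _ hb
    rw [mul_single_apply_of_ne _ _ _ _ _ hb, zero_mul]
  · simp

def B : Matrix (Fin 2 → n) (Fin 2) ℂ := of fun a r =>
  if r = 0 then (if (a 0).1 = (a 0).2 ∧ (a 1).1 = (a 1).2 then 1 else 0)
  else if (a 0).1 = (a 1).2 ∧ (a 1).1 = (a 0).2 then 1 else 0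

lemma G : Bᴴ * B = !![4, 2; 2, 4] := by
  ext i j
  rw [mul_apply, ← (finTwoArrowEquiv n).symm.sum_comp]
  fin_cases i <;> fin_cases j <;> simp [B, Fintype.sum_prod_type] <;> norm_num

variable [MeasurableSpace U] [BorelSpace U] (μ : Measure U) [IsProbabilityMeasure μ] [μ.IsMulLeftInvariant]

lemma mo : moment μ 2 = B * (!![4 / 15, -1 / 15; -1 / 30, 4 / 30] : Matrix (Fin 2) (Fin 2) ℂ) * Bᴴ := by
  ext a b
  simp only [moment, of_apply, Fin.prod_univ_two, ch, Finset.sum_mul_sum]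
  have : ∀ (V : U) s t, V.1 ((a 0).1, s) ((b 0).1, 0) * conj (V.1 ((a 0).2, s) ((b 0).2, 0)) *
      (V.1 ((a 1).1, t) ((b 1).1, 0) * conj (V.1 ((a 1).2, t) ((b 1).2, 0))) =
      f ((b 0).1, 0) ((b 1).1, 0) ((b 0).2, 0) ((b 1).2, 0) ((a 0).1, s) ((a 1).1, t) ((a 0).2, s) ((a 1).2, t) V :=
    fun V s t => by rw [f]; ring
  simp only [this]
  rw [I2 μ _ fun _ _ => fi μ _ _ _ _ _ _ _ _]
  simp only [mom, mul_apply, B, Fin.sum_univ_two, Prod.ext_iff, conjTranspose_apply, of_apply]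
  simp
  split_ifs <;> norm_num

theorem main : N μ 2 4 < N μ 2 5 := by
  have m : ∀ K L : Matrix (Fin 2) (Fin 2) ℂ, B * K * Bᴴ * (B * L * Bᴴ) = B * (K * !![4, 2; 2, 4] * L) * Bᴴ :=
    fun K L => by rw [← G]; simp only [Matrix.mul_assoc]
  have c : ∀ K : Matrix (Fin 2) (Fin 2) ℂ, (B * K * Bᴴ)ᴴ = B * Kᴴ * Bᴴ := fun K => by
    simp only [conjTranspose_mul, conjTranspose_conjTranspose, Matrix.mul_assoc]
  have t : ∀ K : Matrix (Fin 2) (Fin 2) ℂ, (B * K * Bᴴ).trace = (K * !![4, 2; 2, 4]).trace := fun K => by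
    rw [trace_mul_comm, ← Matrix.mul_assoc, G, trace_mul_comm]
  simp only [N, mo, pow_succ, pow_zero, one_mul, m]
  simp only [c, m, t]
  simp only [mul_fin_two]
  norm_num [trace_fin_two, mul_apply, Fin.sum_univ_two, map_ofNat]

end Pool.Agent.H.MP_a4cf75_mp
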